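import Mathlib
import Pool.Agent.Helper60_AK.StmtT

set_option autoImplicit false

/-!
Squad AK, module C3: from T1 (the tangential system modulo a power of gamma) to T2a (the tangential rows vanish
identically).  Induction on the number of rows made exactly zero: the unknown with index k + 1 enters row k with the
factor (k + 1) gamma, so a remainder gamma ^ (r + 2) h in row k is absorbed there, at the price of a remainder
gamma ^ r in the rows k + 1 and k + 2.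
-/

namespace Pool.Agent.AK.H41

open Complex

section basic

variable {V : Type*} [NormedAddCommGroup V] [NormedSpace ℂ V]

lemma cd_dzb {U : Set C2} (hU : IsOpen U) {n m : WithTop ℕ∞} (hmn : m + 1 ≤ n)
    {u : C2 → V} (hu : ContDiffOn ℝ n u U) (j : Fin 2) : ContDiffOn ℝ m (dzb j u) U := by
  have h1 : ∀ v : C2, ContDiffOn ℝ m (fun p => fderiv ℝ u p v) U := fun v =>
    (hu.fderiv_of_isOpen hU hmn).clm_apply contDiffOn_const
  unfold dzb
  exact ContDiffOn.const_smul _ ((h1 _).add ((h1 _).const_smul _))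

lemma cd_dz {U : Set C2} (hU : IsOpen U) {n m : WithTop ℕ∞} (hmn : m + 1 ≤ n)
    {u : C2 → V} (hu : ContDiffOn ℝ n u U) (j : Fin 2) : ContDiffOn ℝ m (dz j u) U := by
  have h1 : ∀ v : C2, ContDiffOn ℝ m (fun p => fderiv ℝ u p v) U := fun v =>
    (hu.fderiv_of_isOpen hU hmn).clm_apply contDiffOn_const
  unfold dz
  exact ContDiffOn.const_smul _ ((h1 _).sub ((h1 _).const_smul _))

end basic

abbrev inf : WithTop ℕ∞ := ((⊤ : ℕ∞) : WithTop ℕ∞)

lemma inf_add_one : inf + 1 ≤ inf := by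
  unfold inf
  exact le_of_eq rfl

lemma cd_rc {ρ : C2 → ℝ} (h : ContDiff ℝ inf ρ) (U : Set C2) : ContDiffOn ℝ inf (rc ρ) U := by
  unfold rc
  exact (Complex.ofRealCLM.contDiff.comp h).contDiffOn

lemma cd_rj {ρ : C2 → ℝ} (h : ContDiff ℝ inf ρ) (j : Fin 2) {U : Set C2} (hU : IsOpen U) :
    ContDiffOn ℝ inf (rj ρ j) U := cd_dz hU inf_add_one (cd_rc h U) j

lemma cd_rjb {ρ : C2 → ℝ} (h : ContDiff ℝ inf ρ) (j : Fin 2) {U : Set C2} (hU : IsOpen U) :
    ContDiffOn ℝ inf (rjb ρ j) U := cd_dzb hU inf_add_one (cd_rc h U) j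

lemma cd_rjk {ρ : C2 → ℝ} (h : ContDiff ℝ inf ρ) (j k : Fin 2) {U : Set C2} (hU : IsOpen U) :
    ContDiffOn ℝ inf (rjk ρ j k) U := cd_dzb hU inf_add_one (cd_rj h j hU) k

lemma cd_g2 {ρ : C2 → ℝ} (h : ContDiff ℝ inf ρ) {U : Set C2} (hU : IsOpen U) :
    ContDiffOn ℝ inf (g2 ρ) U := by
  unfold g2
  exact ((cd_rj h 0 hU).mul (cd_rjb h 0 hU)).add ((cd_rj h 1 hU).mul (cd_rjb h 1 hU))

lemma cd_vec2 {n : WithTop ℕ∞} {f g : C2 → ℂ} {U : Set C2} (hf : ContDiffOn ℝ n f U)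
    (hg : ContDiffOn ℝ n g U) : ContDiffOn ℝ n (fun p => (![f p, g p] : C2)) U := by
  rw [contDiffOn_pi]
  intro i
  fin_cases i
  · exact hf
  · exact hg

lemma cd_div {n : WithTop ℕ∞} {f g : C2 → ℂ} {U : Set C2} (hf : ContDiffOn ℝ n f U)
    (hg : ContDiffOn ℝ n g U) (h0 : ∀ p ∈ U, g p ≠ 0) : ContDiffOn ℝ n (fun p => f p / g p) U := by
  simp only [div_eq_mul_inv]
  exact hf.mul (hg.inv h0)

lemma cd_tau {ρ : C2 → ℝ} (h : ContDiff ℝ inf ρ) {U : Set C2} (hU : IsOpen U) :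
    ContDiffOn ℝ inf (tau ρ) U := cd_vec2 (cd_rj h 1 hU) (cd_rj h 0 hU).neg

lemma cd_nu {ρ : C2 → ℝ} (h : ContDiff ℝ inf ρ) {U : Set C2} (hU : IsOpen U)
    (h0 : ∀ p ∈ U, g2 ρ p ≠ 0) : ContDiffOn ℝ inf (nu ρ) U :=
  cd_vec2 (cd_div (cd_rjb h 0 hU).neg (cd_g2 h hU) h0) (cd_div (cd_rjb h 1 hU).neg (cd_g2 h hU) h0)

lemma cd_comp {n : WithTop ℕ∞} {f : C2 → C2} {U : Set C2} (hf : ContDiffOn ℝ n f U) (i : Fin 2) :
    ContDiffOn ℝ n (fun p => f p i) U := (contDiffOn_pi.mp hf) i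

lemma cd_sig {ρ : C2 → ℝ} (h : ContDiff ℝ inf ρ) {U : Set C2} (hU : IsOpen U)
    (h0 : ∀ p ∈ U, g2 ρ p ≠ 0) {w : C2 → C2} (hw : ContDiffOn ℝ inf w U) :
    ContDiffOn ℝ inf (fun p => sig ρ p (w p)) U := by
  unfold sig
  exact cd_div (((cd_rjb h 1 hU).mul (cd_comp hw 0)).sub ((cd_rjb h 0 hU).mul (cd_comp hw 1)))
    (cd_g2 h hU) h0

lemma cd_fA {ρ : C2 → ℝ} (h : ContDiff ℝ inf ρ) (k : Fin 2) {U : Set C2} (hU : IsOpen U)
    (h0 : ∀ p ∈ U, g2 ρ p ≠ 0) : ContDiffOn ℝ inf (fA ρ k) U := by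
  unfold fA
  exact ((cd_rjk h 0 k hU).mul (cd_comp (cd_nu h hU h0) 0)).add
    ((cd_rjk h 1 k hU).mul (cd_comp (cd_nu h hU h0) 1))

lemma cd_fC {ρ : C2 → ℝ} (h : ContDiff ℝ inf ρ) (k : Fin 2) {U : Set C2} (hU : IsOpen U) :
    ContDiffOn ℝ inf (fC ρ k) U := by
  unfold fC
  exact ((cd_rjk h 0 k hU).mul (cd_comp (cd_tau h hU) 0)).add
    ((cd_rjk h 1 k hU).mul (cd_comp (cd_tau h hU) 1))

lemma cd_fB {ρ : C2 → ℝ} (h : ContDiff ℝ inf ρ) (k : Fin 2) {U : Set C2} (hU : IsOpen U)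
    (h0 : ∀ p ∈ U, g2 ρ p ≠ 0) : ContDiffOn ℝ inf (fB ρ k) U := by
  unfold fB
  exact cd_sig h hU h0 (cd_dzb hU inf_add_one (cd_nu h hU h0) k)

lemma cd_fE {ρ : C2 → ℝ} (h : ContDiff ℝ inf ρ) (k : Fin 2) {U : Set C2} (hU : IsOpen U)
    (h0 : ∀ p ∈ U, g2 ρ p ≠ 0) : ContDiffOn ℝ inf (fE ρ k) U := by
  unfold fE
  exact cd_sig h hU h0 (cd_dzb hU inf_add_one (cd_tau h hU) k)

lemma cd_gam {ρ : C2 → ℝ} (h : ContDiff ℝ inf ρ) {U : Set C2} (hU : IsOpen U) :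
    ContDiffOn ℝ inf (gam ρ) U := by
  unfold gam
  exact ((cd_fC h 0 hU).mul (cd_rjb h 1 hU)).sub ((cd_fC h 1 hU).mul (cd_rjb h 0 hU))

lemma cd_Lbar {ρ : C2 → ℝ} (h : ContDiff ℝ inf ρ) {U : Set C2} (hU : IsOpen U)
    {n m : WithTop ℕ∞} (hmn : m + 1 ≤ n) (hm : m ≤ inf)
    {u : C2 → ℂ} (hu : ContDiffOn ℝ n u U) : ContDiffOn ℝ m (Lbar ρ u) U := by
  unfold Lbar
  exact (((cd_rjb h 1 hU).of_le hm).smul (cd_dzb hU hmn hu 0)).sub
    (((cd_rjb h 0 hU).of_le hm).smul (cd_dzb hU hmn hu 1))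

/-! ### g2 does not vanish on the boundary -/

lemma fderiv_rc {ρ : C2 → ℝ} (h : ContDiff ℝ inf ρ) (p v : C2) :
    fderiv ℝ (rc ρ) p v = ((fderiv ℝ ρ p v : ℝ) : ℂ) := by
  have h1 : HasFDerivAt ρ (fderiv ℝ ρ p) p :=
    (h.differentiable (by simp [inf])).differentiableAt.hasFDerivAt
  have h2 : HasFDerivAt (rc ρ) (Complex.ofRealCLM.comp (fderiv ℝ ρ p)) p :=
    Complex.ofRealCLM.hasFDerivAt.comp p h1
  rw [h2.fderiv]
  rfl

lemma rj_eq {ρ : C2 → ℝ} (h : ContDiff ℝ inf ρ) (j : Fin 2) (p : C2) :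
    rj ρ j p * rjb ρ j p = (((1 / 4 : ℝ) * ((fderiv ℝ ρ p (Pi.single j 1)) ^ 2
      + (fderiv ℝ ρ p (Pi.single j Complex.I)) ^ 2) : ℝ) : ℂ) := by
  unfold rj rjb dz dzb
  rw [fderiv_rc h, fderiv_rc h]
  push_cast
  simp only [smul_eq_mul]
  have hI : Complex.I ^ 2 = -1 := Complex.I_sq
  linear_combination (-(1 / 4 : ℂ) * ((fderiv ℝ ρ p (Pi.single j Complex.I) : ℝ) : ℂ) ^ 2) * hI

lemma g2_ne {ρ : C2 → ℝ} (h : ContDiff ℝ inf ρ) {p : C2} (hp : fderiv ℝ ρ p ≠ 0) :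
    g2 ρ p ≠ 0 := by
  intro h0
  apply hp
  unfold g2 at h0
  rw [rj_eq h, rj_eq h] at h0
  have h1 : (1 / 4 : ℝ) * ((fderiv ℝ ρ p (Pi.single 0 1)) ^ 2
      + (fderiv ℝ ρ p (Pi.single 0 Complex.I)) ^ 2) +
      (1 / 4 : ℝ) * ((fderiv ℝ ρ p (Pi.single 1 1)) ^ 2
      + (fderiv ℝ ρ p (Pi.single 1 Complex.I)) ^ 2) = 0 := by exact_mod_cast h0
  have a0 : fderiv ℝ ρ p (Pi.single 0 1) = 0 := by nlinarith [sq_nonneg (fderiv ℝ ρ p (Pi.single 0 1)), sq_nonneg (fderiv ℝ ρ p (Pi.single 0 Complex.I)), sq_nonneg (fderiv ℝ ρ p (Pi.single 1 1)), sq_nonneg (fderiv ℝ ρ p (Pi.single 1 Complex.I))]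
  have a1 : fderiv ℝ ρ p (Pi.single 0 Complex.I) = 0 := by nlinarith [sq_nonneg (fderiv ℝ ρ p (Pi.single 0 1)), sq_nonneg (fderiv ℝ ρ p (Pi.single 0 Complex.I)), sq_nonneg (fderiv ℝ ρ p (Pi.single 1 1)), sq_nonneg (fderiv ℝ ρ p (Pi.single 1 Complex.I))]
  have a2 : fderiv ℝ ρ p (Pi.single 1 1) = 0 := by nlinarith [sq_nonneg (fderiv ℝ ρ p (Pi.single 0 1)), sq_nonneg (fderiv ℝ ρ p (Pi.single 0 Complex.I)), sq_nonneg (fderiv ℝ ρ p (Pi.single 1 1)), sq_nonneg (fderiv ℝ ρ p (Pi.single 1 Complex.I))]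
  have a3 : fderiv ℝ ρ p (Pi.single 1 Complex.I) = 0 := by nlinarith [sq_nonneg (fderiv ℝ ρ p (Pi.single 0 1)), sq_nonneg (fderiv ℝ ρ p (Pi.single 0 Complex.I)), sq_nonneg (fderiv ℝ ρ p (Pi.single 1 1)), sq_nonneg (fderiv ℝ ρ p (Pi.single 1 Complex.I))]
  ext v
  have hv : v = (v 0).re • (Pi.single 0 1 : C2) + (v 0).im • (Pi.single 0 Complex.I : C2)
      + (v 1).re • (Pi.single 1 1 : C2) + (v 1).im • (Pi.single 1 Complex.I : C2) := by
    funext i
    fin_cases i <;> apply Complex.ext <;> simp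
  rw [hv]
  simp [map_add, map_smul, a0, a1, a2, a3]

/-! ### Lbar as a derivation -/

lemma dzb_add {u v : C2 → ℂ} {p : C2} (hu : DifferentiableAt ℝ u p) (hv : DifferentiableAt ℝ v p)
    (j : Fin 2) : dzb j (fun q => u q + v q) p = dzb j u p + dzb j v p := by
  unfold dzb
  rw [fderiv_fun_add hu hv]
  simp only [ContinuousLinearMap.add_apply, smul_eq_mul]
  ring

lemma dzb_mul {u v : C2 → ℂ} {p : C2} (hu : DifferentiableAt ℝ u p) (hv : DifferentiableAt ℝ v p)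
    (j : Fin 2) : dzb j (fun q => u q * v q) p = dzb j u p * v p + u p * dzb j v p := by
  unfold dzb
  rw [fderiv_fun_mul hu hv]
  simp only [ContinuousLinearMap.add_apply, ContinuousLinearMap.smul_apply, smul_eq_mul]
  ring

lemma dzb_const (c : ℂ) (p : C2) (j : Fin 2) : dzb j (fun _ => c) p = 0 := by
  unfold dzb
  simp

lemma Lbar_add {ρ : C2 → ℝ} {u v : C2 → ℂ} {p : C2} (hu : DifferentiableAt ℝ u p)
    (hv : DifferentiableAt ℝ v p) : Lbar ρ (fun q => u q + v q) p = Lbar ρ u p + Lbar ρ v p := by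
  unfold Lbar
  rw [dzb_add hu hv, dzb_add hu hv]
  simp only [smul_eq_mul]
  ring

lemma Lbar_mul {ρ : C2 → ℝ} {u v : C2 → ℂ} {p : C2} (hu : DifferentiableAt ℝ u p)
    (hv : DifferentiableAt ℝ v p) :
    Lbar ρ (fun q => u q * v q) p = Lbar ρ u p * v p + u p * Lbar ρ v p := by
  unfold Lbar
  rw [dzb_mul hu hv, dzb_mul hu hv]
  simp only [smul_eq_mul]
  ring

lemma Lbar_const {ρ : C2 → ℝ} (c : ℂ) (p : C2) : Lbar ρ (fun _ => c) p = 0 := by
  unfold Lbar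
  rw [dzb_const, dzb_const]
  simp

lemma Lbar_pow {ρ : C2 → ℝ} {u : C2 → ℂ} {p : C2} (hu : DifferentiableAt ℝ u p) (n : ℕ) :
    Lbar ρ (fun q => u q ^ (n + 1)) p = ((n : ℂ) + 1) * u p ^ n * Lbar ρ u p := by
  induction n with
  | zero => simp
  | succ n ih =>
    have h1 : (fun q => u q ^ (n + 1 + 1)) = fun q => u q ^ (n + 1) * u q := by
      funext q; rw [pow_succ]
    rw [h1, Lbar_mul (hu.fun_pow (n + 1)) hu, ih]
    push_cast
    ring

/-! ### The rows -/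

/-- contraction of a (0,1)-form with Lbar. -/
noncomputable def con (ρ : C2 → ℝ) (X : Fin 2 → C2 → ℂ) : C2 → ℂ :=
  fun p => X 0 p * rjb ρ 1 p - X 1 p * rjb ρ 0 p

lemma cd_con {ρ : C2 → ℝ} (h : ContDiff ℝ inf ρ) {U : Set C2} (hU : IsOpen U)
    {X : Fin 2 → C2 → ℂ} (hX : ∀ k, ContDiffOn ℝ inf (X k) U) : ContDiffOn ℝ inf (con ρ X) U := by
  unfold con
  exact ((hX 0).mul (cd_rjb h 1 hU)).sub ((hX 1).mul (cd_rjb h 0 hU))

/-- the tangential row. -/
noncomputable def Row (ρ : C2 → ℝ) (P B : C2 → ℂ) (b : ℕ → C2 → ℂ) (c : ℕ → C2 → ℂ) (k : ℕ) :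
    C2 → ℂ :=
  fun p => Lbar ρ (c k) p + ((k : ℂ) + 1) * gam ρ p * c (k + 1) p + (k : ℂ) * P p * c k p
    - ((k - 1 : ℕ) : ℂ) * B p * c (k - 1) p + b k p

lemma row_eq (ρ : C2 → ℝ) (c : ℕ → C2 → ℂ) (k : ℕ) (p : C2) :
    Dk ρ c k 0 p * rjb ρ 1 p - Dk ρ c k 1 p * rjb ρ 0 p =
      Row ρ (con ρ (fun i q => fE ρ i q - fA ρ i q)) (con ρ (fB ρ))
        (fun k q => (if k = 0 then con ρ (fA ρ) q else 0) + (if k = 1 then con ρ (fB ρ) q else 0))
        c k p := by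
  unfold Dk Row con Lbar gam
  simp only [smul_eq_mul]
  split_ifs <;> ring

lemma step {ρ : C2 → ℝ} (hρ : ContDiff ℝ inf ρ) {U : Set C2} (hU : IsOpen U)
    {P B : C2 → ℂ} (hP : ContDiffOn ℝ inf P U) (hB : ContDiffOn ℝ inf B U)
    (b : ℕ → C2 → ℂ) (J k n r : ℕ) (c h : ℕ → C2 → ℂ)
    (hc : ∀ j, ContDiffOn ℝ ((n + 1 : ℕ) : WithTop ℕ∞) (c j) U)
    (hh : ∀ j, ContDiffOn ℝ ((n + 1 : ℕ) : WithTop ℕ∞) (h j) U)
    (h0 : ∀ j < k, ∀ p ∈ U, Row ρ P B b c j p = 0)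
    (h1 : ∀ j, k ≤ j → j < J → ∀ p ∈ U, Row ρ P B b c j p = gam ρ p ^ (r + 2) * h j p)
    (hkJ : k < J) :
    ∃ c' h' : ℕ → C2 → ℂ,
      (∀ j, ContDiffOn ℝ (n : WithTop ℕ∞) (c' j) U) ∧
      (∀ j, ContDiffOn ℝ (n : WithTop ℕ∞) (h' j) U) ∧
      (∀ j < k + 1, ∀ p ∈ U, Row ρ P B b c' j p = 0) ∧
      (∀ j, k + 1 ≤ j → j < J → ∀ p ∈ U, Row ρ P B b c' j p = gam ρ p ^ r * h' j p) := by
  have hni : ((n : ℕ) : WithTop ℕ∞) ≤ inf := by
    unfold inf
    exact_mod_cast le_top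
  have hn1 : ((n + 1 : ℕ) : WithTop ℕ∞) ≤ inf := by
    unfold inf
    exact_mod_cast le_top
  have hnn : ((n : ℕ) : WithTop ℕ∞) ≤ ((n + 1 : ℕ) : WithTop ℕ∞) := by
    exact_mod_cast Nat.le_succ n
  have hn11 : ((n : ℕ) : WithTop ℕ∞) + 1 ≤ ((n + 1 : ℕ) : WithTop ℕ∞) := by
    push_cast; exact le_rfl
  have hg := cd_gam hρ hU
  have dg : ∀ p ∈ U, DifferentiableAt ℝ (gam ρ) p := fun p hp =>
    (hg.differentiableOn (by simp [inf])).differentiableAt (hU.mem_nhds hp)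
  have dh : ∀ j, ∀ p ∈ U, DifferentiableAt ℝ (h j) p := fun j p hp =>
    ((hh j).differentiableOn (by simp)).differentiableAt (hU.mem_nhds hp)
  have dc : ∀ j, ∀ p ∈ U, DifferentiableAt ℝ (c j) p := fun j p hp =>
    ((hc j).differentiableOn (by simp)).differentiableAt (hU.mem_nhds hp)
  set κ : ℂ := -(1 / ((k : ℂ) + 1)) with hκ
  have hk1 : ((k : ℂ) + 1) ≠ 0 := by exact_mod_cast Nat.succ_ne_zero k
  have hκ1 : ((k : ℂ) + 1) * κ = -1 := by rw [hκ]; field_simp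
  set δ : C2 → ℂ := fun p => κ * (gam ρ p ^ (r + 1) * h k p) with hδ
  have cdδ : ContDiffOn ℝ ((n + 1 : ℕ) : WithTop ℕ∞) δ U :=
    contDiffOn_const.mul (((hg.pow (r + 1)).of_le hn1).mul (hh k))
  have dδ : ∀ p ∈ U, DifferentiableAt ℝ δ p := fun p hp =>
    (cdδ.differentiableOn (by simp)).differentiableAt (hU.mem_nhds hp)
  have Lδ : ∀ p ∈ U, Lbar ρ δ p = gam ρ p ^ r * (κ * (((r : ℂ) + 1) * Lbar ρ (gam ρ) p * h k p
      + gam ρ p * Lbar ρ (h k) p)) := by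
    intro p hp
    have e1 : Lbar ρ δ p = Lbar ρ (fun _ => κ) p * (gam ρ p ^ (r + 1) * h k p)
        + κ * Lbar ρ (fun q => gam ρ q ^ (r + 1) * h k q) p :=
      Lbar_mul (differentiableAt_const κ) (((dg p hp).fun_pow (r + 1)).fun_mul (dh k p hp))
    rw [e1, Lbar_const, Lbar_mul ((dg p hp).fun_pow (r + 1)) (dh k p hp), Lbar_pow (dg p hp)]
    ring
  refine ⟨fun j => if j = k + 1 then (fun p => c j p + δ p) else c j,
    fun j p => gam ρ p ^ 2 * h j p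
      + (if j = k + 1 then κ * (((r : ℂ) + 1) * Lbar ρ (gam ρ) p * h k p
      + gam ρ p * Lbar ρ (h k) p) + ((k : ℂ) + 1) * P p * (κ * (gam ρ p * h k p)) else 0)
      + (if j = k + 2 then B p * (gam ρ p * h k p) else 0), ?_, ?_, ?_, ?_⟩
  · intro j
    dsimp only
    split_ifs with hj
    · exact ((hc j).of_le hnn).add (cdδ.of_le hnn)
    · exact (hc j).of_le hnn
  · intro j
    have c1 : ContDiffOn ℝ (n : WithTop ℕ∞) (fun p => gam ρ p ^ 2 * h j p) U :=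
      ((hg.pow 2).of_le hni).mul ((hh j).of_le hnn)
    have c2 : ContDiffOn ℝ (n : WithTop ℕ∞) (fun p => κ * (((r : ℂ) + 1) * Lbar ρ (gam ρ) p * h k p
      + gam ρ p * Lbar ρ (h k) p) + ((k : ℂ) + 1) * P p * (κ * (gam ρ p * h k p))) U := by
      have d1 : ContDiffOn ℝ (n : WithTop ℕ∞) (Lbar ρ (gam ρ)) U :=
        (cd_Lbar hρ hU inf_add_one le_rfl hg).of_le hni
      have d2 : ContDiffOn ℝ (n : WithTop ℕ∞) (Lbar ρ (h k)) U := cd_Lbar hρ hU hn11 hni (hh k)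
      have d3 : ContDiffOn ℝ (n : WithTop ℕ∞) (h k) U := (hh k).of_le hnn
      have d4 : ContDiffOn ℝ (n : WithTop ℕ∞) (gam ρ) U := hg.of_le hni
      exact (contDiffOn_const.mul (((contDiffOn_const.mul d1).mul d3).add (d4.mul d2))).add
        ((contDiffOn_const.mul (hP.of_le hni)).mul (contDiffOn_const.mul (d4.mul d3)))
    have c3 : ContDiffOn ℝ (n : WithTop ℕ∞) (fun p => B p * (gam ρ p * h k p)) U :=
      (hB.of_le hni).mul ((hg.of_le hni).mul ((hh k).of_le hnn))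
    by_cases e1 : j = k + 1
    · have e2 : ¬ j = k + 2 := by omega
      simp only [e1, if_true, show ¬ (k + 1 = k + 2) by omega, if_false, add_zero]
      subst e1
      exact c1.add c2
    · by_cases e2 : j = k + 2
      · simp only [e1, if_false, e2, if_true, add_zero]
        subst e2
        simp only [show ¬ (k + 2 = k + 1) by omega, if_false, add_zero]
        exact c1.add c3
      · simp only [e1, if_false, e2, add_zero]
        exact c1
  · intro j hj p hp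
    by_cases hjk : j = k
    · subst hjk
      have e := h1 j le_rfl hkJ p hp
      unfold Row at e ⊢
      simp only [show ¬ (j = j + 1) by omega, show ¬ (j - 1 = j + 1) by omega, if_false, if_true]
      rw [hδ]
      linear_combination e + (gam ρ p ^ (r + 2) * h j p) * hκ1
    · have e := h0 j (by omega) p hp
      unfold Row at e ⊢
      simp only [show ¬ (j = k + 1) by omega, show ¬ (j - 1 = k + 1) by omega,
        show ¬ (j + 1 = k + 1) by omega, if_false]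
      exact e
  · intro j hj hjJ p hp
    have e := h1 j (by omega) hjJ p hp
    by_cases e1 : j = k + 1
    · subst e1
      unfold Row at e ⊢
      simp only [show ¬ (k + 1 + 1 = k + 1) by omega, show ¬ (k + 1 - 1 = k + 1) by omega,
        show ¬ (k + 1 = k + 2) by omega, if_false, if_true]
      rw [Lbar_add (dc _ p hp) (dδ p hp), Lδ p hp]
      rw [hδ]
      push_cast
      push_cast at e
      linear_combination e
    · by_cases e2 : j = k + 2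
      · subst e2
        unfold Row at e ⊢
        simp only [show ¬ (k + 2 + 1 = k + 1) by omega, show (k + 2 - 1 = k + 1) by omega,
          show ¬ (k + 2 = k + 1) by omega, if_false, if_true]
        simp only [show (k + 2 - 1 = k + 1) by omega] at e
        rw [hδ]
        push_cast
        push_cast at e
        linear_combination e - (B p * (gam ρ p ^ (r + 1) * h k p)) * hκ1
      · unfold Row at e ⊢
        simp only [e1, e2, show ¬ (j + 1 = k + 1) by omega, show ¬ (j - 1 = k + 1) by omega,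
          if_false]
        linear_combination e

lemma steps {ρ : C2 → ℝ} (hρ : ContDiff ℝ inf ρ) {U : Set C2} (hU : IsOpen U)
    {P B : C2 → ℂ} (hP : ContDiffOn ℝ inf P U) (hB : ContDiffOn ℝ inf B U)
    (b : ℕ → C2 → ℂ) (J s : ℕ) (c h : ℕ → C2 → ℂ)
    (hc : ∀ j, ContDiffOn ℝ ((s + J : ℕ) : WithTop ℕ∞) (c j) U)
    (hh : ∀ j, ContDiffOn ℝ ((s + J : ℕ) : WithTop ℕ∞) (h j) U)
    (h1 : ∀ j, j < J → ∀ p ∈ U, Row ρ P B b c j p = gam ρ p ^ (2 * J) * h j p) (k : ℕ)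
    (hk : k ≤ J) :
    ∃ c' h' : ℕ → C2 → ℂ,
      (∀ j, ContDiffOn ℝ ((s + (J - k) : ℕ) : WithTop ℕ∞) (c' j) U) ∧
      (∀ j, ContDiffOn ℝ ((s + (J - k) : ℕ) : WithTop ℕ∞) (h' j) U) ∧
      (∀ j < k, ∀ p ∈ U, Row ρ P B b c' j p = 0) ∧
      (∀ j, k ≤ j → j < J → ∀ p ∈ U, Row ρ P B b c' j p = gam ρ p ^ (2 * (J - k)) * h' j p) := by
  induction k with
  | zero =>
    refine ⟨c, h, ?_, ?_, ?_, ?_⟩
    · simpa using hc
    · simpa using hh
    · intro j hj; omega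
    · intro j _ hj p hp
      simpa using h1 j hj p hp
  | succ k ih =>
    obtain ⟨c1, g1, a1, a2, a3, a4⟩ := ih (by omega)
    have e1 : s + (J - k) = (s + (J - (k + 1))) + 1 := by omega
    have e2 : 2 * (J - k) = 2 * (J - (k + 1)) + 2 := by omega
    rw [e1] at a1 a2
    rw [e2] at a4
    exact step hρ hU hP hB b J k (s + (J - (k + 1))) (2 * (J - (k + 1))) c1 g1 a1 a2 a3 a4
      (by omega)

theorem t2a (hT1 : T1Stmt) : T2aStmt := by
  intro Ω ρ hS J s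
  have hρ := hS.smooth
  set U₀ : Set C2 := {p | g2 ρ p ≠ 0} with hU₀
  have hgc : Continuous (g2 ρ) :=
    (contDiffOn_univ.mp (cd_g2 hρ isOpen_univ)).continuous
  have hU₀o : IsOpen U₀ := isOpen_ne_fun hgc continuous_const
  have hsub : {p | ρ p = 0} ⊆ U₀ := fun p hp => g2_ne hρ (hS.grad p hp)
  have hg0 : ∀ p ∈ U₀, g2 ρ p ≠ 0 := fun p hp => hp
  set P : C2 → ℂ := con ρ (fun i q => fE ρ i q - fA ρ i q) with hPd
  set B : C2 → ℂ := con ρ (fB ρ) with hBd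
  set b : ℕ → C2 → ℂ := fun k q => (if k = 0 then con ρ (fA ρ) q else 0)
    + (if k = 1 then con ρ (fB ρ) q else 0) with hbd
  have hP : ContDiffOn ℝ inf P U₀ :=
    cd_con hρ hU₀o (fun k => (cd_fE hρ k hU₀o hg0).sub (cd_fA hρ k hU₀o hg0))
  have hB : ContDiffOn ℝ inf B U₀ := cd_con hρ hU₀o (fun k => cd_fB hρ k hU₀o hg0)
  have hA : ContDiffOn ℝ inf (con ρ (fA ρ)) U₀ := cd_con hρ hU₀o (fun k => cd_fA hρ k hU₀o hg0)
  have hb : ∀ k, ContDiffOn ℝ inf (b k) U₀ := by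
    intro k
    rw [hbd]
    dsimp only
    split_ifs
    · omega
    · exact hA.add contDiffOn_const
    · exact contDiffOn_const.add hB
    · exact contDiffOn_const.add contDiffOn_const
  set MM : ℕ → ℕ → C2 → ℂ := fun i j p => (if j = i + 1 then ((i : ℂ) + 1) * gam ρ p else 0)
    + (if j = i then (i : ℂ) * P p else 0) + (if j = i - 1 then - (((i - 1 : ℕ) : ℂ) * B p) else 0)
    with hMM
  have hM : ∀ i j, ContDiffOn ℝ inf (MM i j) U₀ := by
    intro i j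
    rw [hMM]
    dsimp only
    have c1 : ContDiffOn ℝ inf (fun p => if j = i + 1 then ((i : ℂ) + 1) * gam ρ p else 0) U₀ := by
      split_ifs
      · exact contDiffOn_const.mul (cd_gam hρ hU₀o)
      · exact contDiffOn_const
    have c2 : ContDiffOn ℝ inf (fun p => if j = i then (i : ℂ) * P p else 0) U₀ := by
      split_ifs
      · exact contDiffOn_const.mul hP
      · exact contDiffOn_const
    have c3 : ContDiffOn ℝ inf
        (fun p => if j = i - 1 then - (((i - 1 : ℕ) : ℂ) * B p) else 0) U₀ := by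
      split_ifs
      · exact (contDiffOn_const.mul hB).neg
      · exact contDiffOn_const
    exact (c1.add c2).add c3
  obtain ⟨U, hUo, hU1, hU2, c, h, hc, hh, hrow⟩ := hT1 Ω ρ hS (J + 1) U₀ hU₀o hsub
    (fun i j => MM i j) (fun i => b i) (fun i j => hM i j) (fun i => hb i) (2 * J) (s + J)
  refine ⟨U, hUo, hU1, fun p hp => hU2 hp, ?_⟩
  set c1 : ℕ → C2 → ℂ := fun n => if hn : n < J + 1 then c ⟨n, hn⟩ else fun _ => 0 with hc1
  set h1 : ℕ → C2 → ℂ := fun n => if hn : n < J + 1 then h ⟨n, hn⟩ else fun _ => 0 with hh1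
  have cdc : ∀ j, ContDiffOn ℝ ((s + J : ℕ) : WithTop ℕ∞) (c1 j) U := by
    intro j
    rw [hc1]
    dsimp only
    split_ifs with hj
    · exact hc _
    · exact contDiffOn_const
  have cdh : ∀ j, ContDiffOn ℝ ((s + J : ℕ) : WithTop ℕ∞) (h1 j) U := by
    intro j
    rw [hh1]
    dsimp only
    split_ifs with hj
    · exact hh _
    · exact contDiffOn_const
  have hr : ∀ j, j < J → ∀ p ∈ U, Row ρ P B b c1 j p = gam ρ p ^ (2 * J) * h1 j p := by
    intro j hj p hp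
    have e := hrow p hp ⟨j, by omega⟩
    have e1 : c1 j = c ⟨j, by omega⟩ := by
      rw [hc1]; dsimp only; rw [dif_pos (by omega)]
    have e2 : h1 j = h ⟨j, by omega⟩ := by
      rw [hh1]; dsimp only; rw [dif_pos (by omega)]
    have e3 : ∑ i : Fin (J + 1), MM j i p * c i p = ∑ i ∈ Finset.range (J + 1), MM j i p * c1 i p := by
      rw [Finset.sum_range]
      refine Finset.sum_congr rfl fun i _ => ?_
      have : c1 (i : ℕ) = c i := by
        rw [hc1]; dsimp only; rw [dif_pos i.isLt]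
      rw [this]
    have e4 : ∑ i ∈ Finset.range (J + 1), MM j i p * c1 i p =
        ((j : ℂ) + 1) * gam ρ p * c1 (j + 1) p + (j : ℂ) * P p * c1 j p
          - ((j - 1 : ℕ) : ℂ) * B p * c1 (j - 1) p := by
      rw [hMM]
      simp only [add_mul, ite_mul, zero_mul, Finset.sum_add_distrib, Finset.sum_ite_eq',
        Finset.mem_range]
      rw [if_pos (by omega), if_pos (by omega), if_pos (by omega)]
      ring
    dsimp only at e
    rw [← e1, ← e2, e3, e4] at e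
    unfold Row
    linear_combination e
  obtain ⟨c', h', b1, _, b3, _⟩ := steps hρ hUo (hP.mono hU2) (hB.mono hU2) b J s c1 h1 cdc cdh hr J
    le_rfl
  refine ⟨c', ?_, ?_⟩
  · simpa using b1
  · intro k hk p hp
    rw [row_eq]
    exact b3 k hk p hp

end Pool.Agent.AK.H41
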